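import Pool.Agent.TH445.OI.A15

set_option autoImplicit false

/-!
# Independence of the values of `Ω` for almost all shifts

The statement of Q1 of MP_e0aac0_nt with the shifts `0, 1, ..., k` replaced by `0, h_1, ..., h_k`, for almost all
`(h_1, ..., h_k)`, with a rate, and with arbitrary side information.
-/

namespace Pool.Agent.Results.MP_e0aac0_nt.AlmostAllShifts

open Finset
open ArithmeticFunction (cardFactors)

/-- The number of solutions of `s (m 1) + ... + s (m p) = s (m' 1) + ... + s (m' p)` with all `m i`, `m' i` in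
`{1, ..., x}`. -/
def energy (p x : ℕ) (s : ℕ → ℕ) : ℕ :=
  (((Fintype.piFinset fun _ : Fin p => Icc 1 x) ×ˢ (Fintype.piFinset fun _ : Fin p => Icc 1 x)).filter
    (fun q => ∑ i, s (q.1 i) = ∑ i, s (q.2 i))).card

/-- The family `s 1, ..., s x` of shifts lies in `[0, B N]` and for some `p ≤ P` the number of solutions of
`s (m 1) + ... + s (m p) = s (m' 1) + ... + s (m' p)` is at most `C x ^ (2 p) / N`, which is the smallest possible
order of magnitude. -/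
def Spread (N B P : ℕ) (C : ℝ) (x : ℕ) (s : ℕ → ℕ) : Prop :=
  (∀ m ∈ Icc 1 x, s m ≤ B * N) ∧ ∃ p ≤ P, (energy p x s : ℝ) * N ≤ C * (x : ℝ) ^ (2 * p)

/-- The mean over all `(r_1, ..., r_k)` in `[N]^k` of `g (Ω(r_1), ..., Ω(r_k))`. -/
noncomputable def mean (N k : ℕ) (g : (Fin k → ℕ) → ℂ) : ℂ :=
  (∑ r ∈ Fintype.piFinset (fun _ : Fin k => Icc 1 N), g (fun i => cardFactors (r i))) / (N : ℂ) ^ k

/-- The rate `log log log N / √(log log N)`. -/
noncomputable def rate (N : ℕ) : ℝ := Real.log (Real.log (Real.log N)) / √(Real.log (Real.log N))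

/-- The sum over `ℓ` of Q1 (tuples of positive integers `ℓ i + 1`), with shifts `h i`; Q1 is the case `h i = i`. -/
noncomputable def q1sum (N : ℕ) {K : ℕ} (h : Fin K → ℕ) : ℝ :=
  ∑' ℓ : Fin K → ℕ, |(1 / (N : ℝ)) * (((Icc 1 N).filter (fun n => ∀ i, cardFactors (n + h i) = ℓ i + 1)).card : ℝ) -
    ∏ i : Fin K, ((1 / (N : ℝ)) * (((Icc 1 N).filter (fun n => cardFactors n = ℓ i + 1)).card : ℝ))|

lemma energy_eq (p x : ℕ) (s : ℕ → ℕ) : energy p x s = Pool.Agent.H373R2.T7.energy p x (fun m => (s m : ℤ)) := by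
  unfold energy Pool.Agent.H373R2.T7.energy
  congr 1
  apply filter_congr
  intro q _
  rw [← Nat.cast_sum, ← Nat.cast_sum, Nat.cast_inj]

lemma spread_iff (N B P : ℕ) (C : ℝ) (x : ℕ) (s : ℕ → ℕ) :
    Spread N B P C x s ↔ ∃ p ≤ P, Pool.Agent.TH445.OI.Good N B p C x s := by
  unfold Spread Pool.Agent.TH445.OI.Good
  simp only [energy_eq]
  constructor
  · rintro ⟨h1, p, hp, h2⟩
    exact ⟨p, hp, h1, h2⟩
  · rintro ⟨p, hp, h1, h2⟩
    exact ⟨h1, p, hp, h2⟩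

/-- the theorem for families -/
theorem main (j k P B : ℕ) (C₀ : ℝ) : ∃ κ : ℝ, 0 < κ ∧ ∃ C : ℝ, 0 < C ∧ ∃ N₀ : ℕ, ∀ N : ℕ, N₀ ≤ N →
    ∀ f : ℕ → ℕ, (∀ n, (f n : ℝ) ≤ Real.log N ^ κ) → ∀ t : Fin j → ℕ, (∀ i, t i ≤ B * N) →
    ∀ (x : Fin k → ℕ) (s : Fin k → ℕ → ℕ), (∀ i, Spread N B P C₀ (x i) (s i)) →
    ∃ E ⊆ Fintype.piFinset (fun i => Icc 1 (x i)), (E.card : ℝ) ≤ (∏ i, (x i : ℝ)) * Real.log N ^ (-κ) ∧
      ∀ m ∈ Fintype.piFinset (fun i => Icc 1 (x i)), m ∉ E →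
      ∀ a : ℕ → (Fin j → ℕ) → (Fin k → ℕ) → ℂ, (∀ c u l, ‖a c u l‖ ≤ 1) →
      ‖(1 / (N : ℂ)) * ∑ n ∈ Icc 1 N, a (f n) (fun i => cardFactors (n + t i)) (fun i => cardFactors (n + s i (m i))) -
        (1 / (N : ℂ)) * ∑ n ∈ Icc 1 N, mean N k (a (f n) (fun i => cardFactors (n + t i)))‖ ≤ C * rate N := by
  obtain ⟨κ, hκ, C, hC, N₀, hN₀3, h⟩ := Pool.Agent.TH445.OI.indF P (B + 1) (by omega) (max C₀ 0) (le_max_right _ _) j k
  refine ⟨κ, hκ, C, hC, N₀, fun N hN f hf t ht x s hs => ?_⟩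
  have hN0 : (0 : ℝ) < N := by exact_mod_cast (by omega : 0 < N)
  have hBN : B * N ≤ (B + 1) * N := Nat.mul_le_mul_right _ (by omega)
  obtain ⟨E, hE1, hE2, hE3⟩ := h N hN f hf t (fun i => (ht i).trans hBN) x s (by
    intro i
    obtain ⟨p, hp, h1, h2⟩ := (spread_iff _ _ _ _ _ _).1 (hs i)
    refine ⟨p, hp, fun m hm => (h1 m hm).trans hBN, h2.trans ?_⟩
    apply mul_le_mul_of_nonneg_right (le_max_left _ _) (by positivity))
  refine ⟨E, hE1, hE2, fun m hm hmE a ha => ?_⟩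
  have h3 := hE3 m hm hmE a ha
  rw [← mul_sub, norm_mul, norm_div, norm_one, Complex.norm_natCast, one_div, inv_mul_le_iff₀ hN0]
  refine h3.trans (le_of_eq ?_)
  have e : Pool.Agent.TH445.OI.rr N = rate N := rfl
  rw [e]
  ring

theorem result :
    -- Main theorem. Side information: a label `f n` with at most `(log N) ^ κ` values, and the values of `Ω` at
    -- `n + t_1, ..., n + t_j` (for example `n, n + 1, ..., n + j - 1`). For all members `h_i = s_i(m_i)` of `k` families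
    -- of shifts, apart from a proportion at most `(log N) ^ (-κ)` of the `(m_1, ..., m_k)`, the values
    -- `Ω(n + h_1), ..., Ω(n + h_k)` are jointly independent, independent of the side information, and distributed as the
    -- values of `Ω` on `[N]`, up to `C log log log N / √(log log N)` in total variation.
    (∀ (j k P B : ℕ) (C₀ : ℝ), ∃ κ : ℝ, 0 < κ ∧ ∃ C : ℝ, 0 < C ∧ ∃ N₀ : ℕ, ∀ N : ℕ, N₀ ≤ N →
      ∀ f : ℕ → ℕ, (∀ n, (f n : ℝ) ≤ Real.log N ^ κ) → ∀ t : Fin j → ℕ, (∀ i, t i ≤ B * N) →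
      ∀ (x : Fin k → ℕ) (s : Fin k → ℕ → ℕ), (∀ i, Spread N B P C₀ (x i) (s i)) →
      ∃ E ⊆ Fintype.piFinset (fun i => Icc 1 (x i)), (E.card : ℝ) ≤ (∏ i, (x i : ℝ)) * Real.log N ^ (-κ) ∧
        ∀ m ∈ Fintype.piFinset (fun i => Icc 1 (x i)), m ∉ E →
        ∀ a : ℕ → (Fin j → ℕ) → (Fin k → ℕ) → ℂ, (∀ c u l, ‖a c u l‖ ≤ 1) →
        ‖(1 / (N : ℂ)) * ∑ n ∈ Icc 1 N, a (f n) (fun i => cardFactors (n + t i)) (fun i => cardFactors (n + s i (m i))) -
          (1 / (N : ℂ)) * ∑ n ∈ Icc 1 N, mean N k (a (f n) (fun i => cardFactors (n + t i)))‖ ≤ C * rate N) ∧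
    -- The sum of Q1 for the shifts `0, h_1, ..., h_k`, for almost all `(h_1, ..., h_k)` in `[B N]^k`.
    (∀ k B : ℕ, 1 ≤ B → ∃ κ : ℝ, 0 < κ ∧ ∃ C : ℝ, 0 < C ∧ ∃ N₀ : ℕ, ∀ N : ℕ, N₀ ≤ N →
      ∃ E ⊆ Fintype.piFinset (fun _ : Fin k => Icc 1 (B * N)),
        (E.card : ℝ) ≤ ((B * N : ℕ) : ℝ) ^ k * Real.log N ^ (-κ) ∧
        ∀ h ∈ Fintype.piFinset (fun _ : Fin k => Icc 1 (B * N)), h ∉ E →
          q1sum N (Fin.cons 0 h : Fin (k + 1) → ℕ) ≤ C * rate N) ∧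
    -- Families to which the main theorem applies: all integers of `[B N]`,
    (∀ N B : ℕ, 1 ≤ B → Spread N B 1 1 (B * N) (fun m => m)) ∧
    -- the values `F(1), ..., F(x)` of a polynomial of degree `d` with `x ^ d` of the order of `N`,
    (∀ F : Polynomial ℤ, 1 ≤ F.natDegree → 0 < F.leadingCoeff → (∀ m : ℕ, 1 ≤ m → 0 ≤ F.eval (m : ℤ)) →
      ∀ A : ℕ, ∃ B P : ℕ, ∃ C : ℝ, ∀ N x : ℕ, N ≤ A * x ^ F.natDegree → x ^ F.natDegree ≤ A * N →
        Spread N B P C x (fun m => (F.eval (m : ℤ)).toNat)) ∧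
    -- and the primes in `(√N, N]`.
    (∃ C : ℝ, ∃ N₀ : ℕ, ∀ N : ℕ, N₀ ≤ N → ∃ (x : ℕ) (s : ℕ → ℕ),
      Set.BijOn s (Set.Icc 1 x) {p | p.Prime ∧ p ≤ N ∧ N < p ^ 2} ∧ Spread N 1 2 C x s) := by
  refine ⟨main, ?_, ?_, ?_, ?_⟩
  · intro k B hB
    obtain ⟨κ, hκ, C, hC, N₀, h⟩ := main 1 k 1 B 1
    refine ⟨κ, hκ, C, hC, max N₀ 1, fun N hN => ?_⟩
    have hN1 : 1 ≤ N := by omega
    have hN0 : (N : ℂ) ≠ 0 := by exact_mod_cast (by omega : N ≠ 0)
    by_cases hr : 0 ≤ Real.log N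
    swap
    · exfalso
      exact hr (Real.log_nonneg (by exact_mod_cast hN1))
    obtain ⟨E, hE1, hE2, hE3⟩ := h N (by omega) (fun _ => 0) (fun n => by
      simp only [Nat.cast_zero]; exact Real.rpow_nonneg hr _) (fun _ => 0) (fun _ => Nat.zero_le _)
      (fun _ => B * N) (fun _ m => m) (fun i => (spread_iff _ _ _ _ _ _).2 ⟨1, le_rfl, Pool.Agent.TH445.OI.good_all N B hB⟩)
    refine ⟨E, hE1, ?_, fun m hm hmE => ?_⟩
    · refine hE2.trans (le_of_eq ?_)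
      rw [prod_const, card_univ, Fintype.card_fin]
    · have hrate : 0 ≤ C * rate N := (norm_nonneg _).trans (hE3 m hm hmE (fun _ _ _ => 0) (by intro c u l; simp))
      unfold q1sum
      apply Pool.Agent.TH445.OI.tv_form N (k + 1) (fun n i => cardFactors (n + (Fin.cons 0 m : Fin (k + 1) → ℕ) i)) (C * rate N) hrate
      intro a ha
      have h1 := hE3 m hm hmE (fun _ u l => a (Fin.cons (u 0) l : Fin (k + 1) → ℕ)) (fun _ _ _ => ha _)
      have e1 : ∀ n : ℕ, (fun i => cardFactors (n + (Fin.cons 0 m : Fin (k + 1) → ℕ) i)) =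
          (Fin.cons (cardFactors (n + 0)) (fun i => cardFactors (n + m i)) : Fin (k + 1) → ℕ) := by
        intro n
        funext i
        refine Fin.cases ?_ (fun i' => ?_) i
        · simp
        · simp
      have e2 : (1 / (N : ℂ)) * ∑ n ∈ Icc 1 N, mean N k (fun l => a (Fin.cons (cardFactors (n + 0)) l : Fin (k + 1) → ℕ)) =
          Pool.Agent.TH445.OI.av N (k + 1) a := by
        rw [Pool.Agent.TH445.OI.av_succ, one_div, div_eq_inv_mul]
        rfl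
      simp only [e1]
      rw [← e2]
      exact h1
  · intro N B hB
    exact (spread_iff _ _ _ _ _ _).2 ⟨1, le_rfl, Pool.Agent.TH445.OI.good_all N B hB⟩
  · intro F hd hl hp A
    obtain ⟨B, p, C, _, h⟩ := Pool.Agent.TH445.OI.good_poly F hd hl hp A
    exact ⟨B, p, C, fun N x h1 h2 => (spread_iff _ _ _ _ _ _).2 ⟨p, le_rfl, h N x h1 h2⟩⟩
  · obtain ⟨C, _, N₀, _, h⟩ := Pool.Agent.TH445.OI.good_primes
    refine ⟨C, N₀, fun N hN => ?_⟩
    obtain ⟨s, h1, h2⟩ := h N hN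
    refine ⟨_, s, ?_, (spread_iff _ _ _ _ _ _).2 ⟨2, le_rfl, h2⟩⟩
    rw [coe_Icc] at h1
    have e : ((Pool.Agent.Helper602.MK.PP N : Finset ℕ) : Set ℕ) = {p | p.Prime ∧ p ≤ N ∧ N < p ^ 2} := by
      ext p
      unfold Pool.Agent.Helper602.MK.PP
      rw [mem_coe, mem_filter, mem_Icc, Set.mem_ofPred_eq]
      constructor
      · rintro ⟨⟨_, h3⟩, h4, h5⟩
        exact ⟨h4, h3, h5⟩
      · rintro ⟨h4, h3, h5⟩
        exact ⟨⟨h4.one_lt.le, h3⟩, h4, h5⟩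
    rw [e] at h1
    exact h1

end Pool.Agent.Results.MP_e0aac0_nt.AlmostAllShifts
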