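import Pool.Agent.TH445.OI.A15
import Pool.Agent.TH445.OI.A23

set_option autoImplicit false

/-!
# The local law of the values of `Ω` at `k` points, for almost all shifts

Asymptotic formulas for the number of `n ≤ N` for which `Ω(n), Ω(n + h_1), ..., Ω(n + h_k)` take prescribed values, for
almost all `(h_1, ..., h_k)`, uniformly in the values.
-/

namespace Pool.Agent.Results.MP_e0aac0_nt.LocalLaw

open Finset
open ArithmeticFunction (cardFactors)

/-- The number of solutions of `s (m 1) + ... + s (m p) = s (m' 1) + ... + s (m' p)` with all `m i`, `m' i` in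
`{1, ..., x}`. -/
def energy (p x : ℕ) (s : ℕ → ℕ) : ℕ :=
  (((Fintype.piFinset fun _ : Fin p => Icc 1 x) ×ˢ (Fintype.piFinset fun _ : Fin p => Icc 1 x)).filter
    (fun q => ∑ i, s (q.1 i) = ∑ i, s (q.2 i))).card

/-- The family `s 1, ..., s x` of shifts lies in `[0, B N]` and for some `p ≤ P` the number of solutions of
`s (m 1) + ... + s (m p) = s (m' 1) + ... + s (m' p)` is at most `C x ^ (2 p) / N`, which is the smallest possible
order of magnitude. -/
def Spread (N B P : ℕ) (C : ℝ) (x : ℕ) (s : ℕ → ℕ) : Prop :=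
  (∀ m ∈ Icc 1 x, s m ≤ B * N) ∧ ∃ p ≤ P, (energy p x s : ℝ) * N ≤ C * (x : ℝ) ^ (2 * p)

/-- The density `π_l(N)` of the `n ≤ N` with `Ω(n) = l`. -/
noncomputable def dens (N l : ℕ) : ℝ := (1 / (N : ℝ)) * (((Icc 1 N).filter (fun n => cardFactors n = l)).card : ℝ)

/-- `log log N`. -/
noncomputable def ll (N : ℕ) : ℝ := Real.log (Real.log N)

lemma energy_eq (p x : ℕ) (s : ℕ → ℕ) : energy p x s = Pool.Agent.H373R2.T7.energy p x (fun m => (s m : ℤ)) := by
  unfold energy Pool.Agent.H373R2.T7.energy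
  congr 1
  apply filter_congr
  intro q _
  rw [← Nat.cast_sum, ← Nat.cast_sum, Nat.cast_inj]

lemma spread_iff (N B P : ℕ) (C : ℝ) (x : ℕ) (s : ℕ → ℕ) :
    Spread N B P C x s ↔ ∃ p ≤ P, Pool.Agent.TH445.OI.Good N B p C x s := by
  unfold Spread Pool.Agent.TH445.OI.Good
  simp only [energy_eq]
  constructor
  · rintro ⟨h1, p, hp, h2⟩
    exact ⟨p, hp, h1, h2⟩
  · rintro ⟨p, hp, h1, h2⟩
    exact ⟨h1, p, hp, h2⟩

lemma dens_eq (N l : ℕ) : dens N l = Pool.Agent.TH445.OI.pl N l := by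
  unfold dens Pool.Agent.TH445.OI.pl Pool.Agent.TH445.OI.cn0
  rw [card_filter]
  push_cast
  ring

/-- the theorem with weights -/
theorem main (j k P B A : ℕ) (C₀ : ℝ) : ∃ κ : ℝ, 0 < κ ∧ ∃ C : ℝ, 0 < C ∧ ∃ N₀ : ℕ, ∀ N : ℕ, N₀ ≤ N →
    ∀ f : ℕ → ℕ, (∀ n, (f n : ℝ) ≤ Real.log N ^ κ) → ∀ t : Fin j → ℕ, (∀ i, t i ≤ B * N) →
    ∀ (x : Fin k → ℕ) (s : Fin k → ℕ → ℕ), (∀ i, Spread N B P C₀ (x i) (s i)) →
    ∃ E ⊆ Fintype.piFinset (fun i => Icc 1 (x i)), (E.card : ℝ) ≤ (∏ i, (x i : ℝ)) * Real.log N ^ (-κ) ∧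
      ∀ m ∈ Fintype.piFinset (fun i => Icc 1 (x i)), m ∉ E →
      ∀ b : ℕ → (Fin j → ℕ) → ℝ, (∀ c u, 0 ≤ b c u ∧ b c u ≤ 1) → ∀ G : ℕ → (Fin j → ℕ) → Fin k → ℕ,
      |(1 / (N : ℝ)) * ∑ n ∈ Icc 1 N, b (f n) (fun i => cardFactors (n + t i)) *
          ((if ∀ i, cardFactors (n + s i (m i)) = G (f n) (fun i => cardFactors (n + t i)) i then (1 : ℝ) else 0) -
            ∏ i, dens N (G (f n) (fun i => cardFactors (n + t i)) i))| ≤
        C * (Real.log (ll N) / √(ll N) ^ (k + 1)) * ((1 / (N : ℝ)) * ∑ n ∈ Icc 1 N, b (f n) (fun i => cardFactors (n + t i))) +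
          C / ll N ^ A := by
  obtain ⟨κ, hκ, C, hC, N₀, hN₀3, h⟩ := Pool.Agent.TH445.OI.locW P (B + 1) (by omega) (max C₀ 0) (le_max_right _ _) A j k
  refine ⟨κ, hκ, C, hC, N₀, fun N hN f hf t ht x s hs => ?_⟩
  have hN0 : (0 : ℝ) < N := by exact_mod_cast (by omega : 0 < N)
  have hBN : B * N ≤ (B + 1) * N := Nat.mul_le_mul_right _ (by omega)
  obtain ⟨E, hE1, hE2, hE3⟩ := h N hN f hf t (fun i => (ht i).trans hBN) x s (by
    intro i
    obtain ⟨p, hp, h1, h2⟩ := (spread_iff _ _ _ _ _ _).1 (hs i)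
    refine ⟨p, hp, fun m hm => (h1 m hm).trans hBN, h2.trans ?_⟩
    apply mul_le_mul_of_nonneg_right (le_max_left _ _) (by positivity))
  refine ⟨E, hE1, hE2, fun m hm hmE b hb G => ?_⟩
  have h3 := hE3 m hm hmE b hb G
  simp only [dens_eq]
  rw [abs_mul, abs_of_pos (by positivity : (0 : ℝ) < 1 / N), one_div, inv_mul_le_iff₀ hN0]
  refine h3.trans (le_of_eq ?_)
  have e1 : Pool.Agent.TH445.OI.lll N = Real.log (ll N) := rfl
  have e2 : Pool.Agent.TH445.OI.r1 N = 1 / √(ll N) := rfl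
  have e3 : Real.log (Real.log (N : ℝ)) = ll N := rfl
  rw [e1, e2, e3, one_div, inv_pow]
  field_simp

theorem result :
    -- Main theorem. Side information: a label `f n` with at most `(log N) ^ κ` values and the values of `Ω` at
    -- `n + t_1, ..., n + t_j`. For all members `h_i = s_i(m_i)` of `k` families of shifts, apart from a proportion at
    -- most `(log N) ^ (-κ)` of the `(m_1, ..., m_k)`: for every weight `b` in `[0, 1]` and all prescribed values `G_i`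
    -- depending on the side information, the weighted number of `n ≤ N` with `Ω(n + h_i) = G_i` for all `i` is the
    -- weighted sum of `∏ π_{G_i}(N)`, with an error `C log log log N / (log log N) ^ ((k + 1) / 2)` times the sum of the
    -- weights plus `C N / (log log N) ^ A`.
    (∀ (j k P B A : ℕ) (C₀ : ℝ), ∃ κ : ℝ, 0 < κ ∧ ∃ C : ℝ, 0 < C ∧ ∃ N₀ : ℕ, ∀ N : ℕ, N₀ ≤ N →
      ∀ f : ℕ → ℕ, (∀ n, (f n : ℝ) ≤ Real.log N ^ κ) → ∀ t : Fin j → ℕ, (∀ i, t i ≤ B * N) →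
      ∀ (x : Fin k → ℕ) (s : Fin k → ℕ → ℕ), (∀ i, Spread N B P C₀ (x i) (s i)) →
      ∃ E ⊆ Fintype.piFinset (fun i => Icc 1 (x i)), (E.card : ℝ) ≤ (∏ i, (x i : ℝ)) * Real.log N ^ (-κ) ∧
        ∀ m ∈ Fintype.piFinset (fun i => Icc 1 (x i)), m ∉ E →
        ∀ b : ℕ → (Fin j → ℕ) → ℝ, (∀ c u, 0 ≤ b c u ∧ b c u ≤ 1) → ∀ G : ℕ → (Fin j → ℕ) → Fin k → ℕ,
        |(1 / (N : ℝ)) * ∑ n ∈ Icc 1 N, b (f n) (fun i => cardFactors (n + t i)) *
            ((if ∀ i, cardFactors (n + s i (m i)) = G (f n) (fun i => cardFactors (n + t i)) i then (1 : ℝ) else 0) -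
              ∏ i, dens N (G (f n) (fun i => cardFactors (n + t i)) i))| ≤
          C * (Real.log (ll N) / √(ll N) ^ (k + 1)) * ((1 / (N : ℝ)) * ∑ n ∈ Icc 1 N, b (f n) (fun i => cardFactors (n + t i))) +
            C / ll N ^ A) ∧
    -- Prescribed values of `Ω` at `n, n + h_1, ..., n + h_k`, uniformly in the values, for almost all
    -- `(h_1, ..., h_k)` in `[B N]^k`.
    (∀ k B : ℕ, 1 ≤ B → ∃ κ : ℝ, 0 < κ ∧ ∃ C : ℝ, 0 < C ∧ ∃ N₀ : ℕ, ∀ N : ℕ, N₀ ≤ N →
      ∃ E ⊆ Fintype.piFinset (fun _ : Fin k => Icc 1 (B * N)),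
        (E.card : ℝ) ≤ ((B * N : ℕ) : ℝ) ^ k * Real.log N ^ (-κ) ∧
        ∀ h ∈ Fintype.piFinset (fun _ : Fin k => Icc 1 (B * N)), h ∉ E → ∀ ℓ : Fin (k + 1) → ℕ,
          |(1 / (N : ℝ)) * (((Icc 1 N).filter (fun n => ∀ i, cardFactors (n + (Fin.cons 0 h : Fin (k + 1) → ℕ) i) = ℓ i)).card : ℝ) -
            ∏ i, dens N (ℓ i)| ≤ C * (Real.log (ll N) / √(ll N) ^ (k + 2))) ∧
    -- The number of `n ≤ N` with `Ω(n) = Ω(n + h_1) = ... = Ω(n + h_k)`; the main term is the proportion of the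
    -- `(r_0, ..., r_k)` in `[N]^(k + 1)` with `Ω(r_0) = ... = Ω(r_k)`.
    (∀ k B : ℕ, 1 ≤ B → ∃ κ : ℝ, 0 < κ ∧ ∃ C : ℝ, 0 < C ∧ ∃ N₀ : ℕ, ∀ N : ℕ, N₀ ≤ N →
      ∃ E ⊆ Fintype.piFinset (fun _ : Fin k => Icc 1 (B * N)),
        (E.card : ℝ) ≤ ((B * N : ℕ) : ℝ) ^ k * Real.log N ^ (-κ) ∧
        ∀ h ∈ Fintype.piFinset (fun _ : Fin k => Icc 1 (B * N)), h ∉ E →
          |(1 / (N : ℝ)) * (((Icc 1 N).filter (fun n => ∀ i, cardFactors (n + h i) = cardFactors n)).card : ℝ) -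
            (1 / (N : ℝ)) * ∑ n ∈ Icc 1 N, dens N (cardFactors n) ^ k| ≤ C * (Real.log (ll N) / √(ll N) ^ (k + 1))) := by
  refine ⟨main, ?_, ?_⟩
  · intro k B hB
    obtain ⟨κ, hκ, C, hC, N₀, h⟩ := main 1 k 1 B (k + 2) 1
    obtain ⟨Cp, hCp, N1, hN1, hpl⟩ := Pool.Agent.TH445.OI.pl_bounds
    obtain ⟨N2, hN2, hr⟩ := Pool.Agent.TH445.OI.rr_facts
    obtain ⟨N3, hN3, hr2⟩ := Pool.Agent.TH445.OI.r2_facts
    refine ⟨κ, hκ, C * Cp + C, by positivity, max (max N₀ N1) (max N2 N3), fun N hN => ?_⟩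
    have hN1 : 1 ≤ N := by omega
    have hN0 : (0 : ℝ) < N := by exact_mod_cast (by omega : 0 < N)
    obtain ⟨p1, -, p3⟩ := hpl N (by omega)
    obtain ⟨-, -, v16, hL1⟩ := hr N (by omega)
    obtain ⟨-, -, u1⟩ := hr2 N (by omega)
    have ell : Real.log (Real.log (N : ℝ)) = ll N := rfl
    rw [ell] at v16 u1
    obtain ⟨E, hE1, hE2, hE3⟩ := h N (by omega) (fun _ => 0) (fun n => by
      simp only [Nat.cast_zero]; exact Real.rpow_nonneg (by linarith) _) (fun _ => 0) (fun _ => Nat.zero_le _)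
      (fun _ => B * N) (fun _ m => m) (fun i => (spread_iff _ _ _ _ _ _).2 ⟨1, le_rfl, Pool.Agent.TH445.OI.good_all N B hB⟩)
    refine ⟨E, hE1, ?_, fun m hm hmE ℓ => ?_⟩
    · refine hE2.trans (le_of_eq ?_)
      rw [prod_const, card_univ, Fintype.card_fin]
    · have h1 := hE3 m hm hmE (fun _ u => if u 0 = ℓ 0 then 1 else 0) (fun _ u => by split_ifs <;> norm_num) (fun _ _ i => ℓ i.succ)
      simp only [add_zero] at h1
      have e1 : (1 / (N : ℝ)) * ∑ n ∈ Icc 1 N, (if cardFactors n = ℓ 0 then (1 : ℝ) else 0) = dens N (ℓ 0) := by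
        unfold dens
        rw [card_filter]
        push_cast
        rfl
      have e2 : (1 / (N : ℝ)) * ∑ n ∈ Icc 1 N, (if cardFactors n = ℓ 0 then (1 : ℝ) else 0) *
          ((if ∀ i, cardFactors (n + m i) = ℓ i.succ then (1 : ℝ) else 0) - ∏ i : Fin k, dens N (ℓ i.succ)) =
          (1 / (N : ℝ)) * (((Icc 1 N).filter (fun n => ∀ i, cardFactors (n + (Fin.cons 0 m : Fin (k + 1) → ℕ) i) = ℓ i)).card : ℝ) -
            ∏ i, dens N (ℓ i) := by
        rw [Fin.prod_univ_succ, ← e1, card_filter]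
        push_cast
        rw [mul_assoc, ← mul_sub, sum_mul, ← sum_sub_distrib]
        congr 1
        apply sum_congr rfl
        intro n _
        have e3 : (∀ i : Fin (k + 1), cardFactors (n + (Fin.cons 0 m : Fin (k + 1) → ℕ) i) = ℓ i) ↔
            (cardFactors n = ℓ 0 ∧ ∀ i : Fin k, cardFactors (n + m i) = ℓ i.succ) := by
          rw [Fin.forall_fin_succ]
          simp
        simp only [e3]
        by_cases h2 : cardFactors n = ℓ 0
        · simp only [h2, true_and, if_true]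
          ring
        · simp only [h2, false_and, if_false]
          ring
      rw [e2, e1] at h1
      refine h1.trans ?_
      have hv0 : 0 < ll N := by linarith
      have hsv0 : 0 < √(ll N) := Real.sqrt_pos.2 hv0
      have hs1 : 1 ≤ √(ll N) := Real.le_sqrt_of_sq_le (by linarith)
      have hd : dens N (ℓ 0) ≤ Cp * (1 / √(ll N)) := by rw [dens_eq]; exact p1 _
      have hu0 : 0 < Real.log (ll N) := by linarith
      have t1 : C * (Real.log (ll N) / √(ll N) ^ (k + 1)) * dens N (ℓ 0) ≤ C * Cp * (Real.log (ll N) / √(ll N) ^ (k + 2)) := by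
        calc C * (Real.log (ll N) / √(ll N) ^ (k + 1)) * dens N (ℓ 0) ≤ C * (Real.log (ll N) / √(ll N) ^ (k + 1)) * (Cp * (1 / √(ll N))) := by gcongr
          _ = _ := by rw [pow_succ (√(ll N)) (k + 1)]; field_simp
      have t2 : C / ll N ^ (k + 2) ≤ C * (Real.log (ll N) / √(ll N) ^ (k + 2)) := by
        rw [div_eq_mul_one_div]
        apply mul_le_mul_of_nonneg_left _ hC.le
        apply div_le_div₀ hu0.le u1 (by positivity)
        apply pow_le_pow_left₀ hsv0.le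
        rw [Real.sqrt_le_left hv0.le]
        nlinarith
      have e4 : (C * Cp + C) * (Real.log (ll N) / √(ll N) ^ (k + 2)) = C * Cp * (Real.log (ll N) / √(ll N) ^ (k + 2)) + C * (Real.log (ll N) / √(ll N) ^ (k + 2)) := by ring
      rw [e4]
      linarith
  · intro k B hB
    obtain ⟨κ, hκ, C, hC, N₀, h⟩ := main 1 k 1 B (k + 1) 1
    obtain ⟨N2, hN2, hr⟩ := Pool.Agent.TH445.OI.rr_facts
    obtain ⟨N3, hN3, hr2⟩ := Pool.Agent.TH445.OI.r2_facts
    refine ⟨κ, hκ, C + C, by positivity, max N₀ (max N2 N3), fun N hN => ?_⟩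
    have hN1 : 1 ≤ N := by omega
    have hN0 : (0 : ℝ) < N := by exact_mod_cast (by omega : 0 < N)
    obtain ⟨-, -, v16, hL1⟩ := hr N (by omega)
    obtain ⟨-, -, u1⟩ := hr2 N (by omega)
    have ell : Real.log (Real.log (N : ℝ)) = ll N := rfl
    rw [ell] at v16 u1
    obtain ⟨E, hE1, hE2, hE3⟩ := h N (by omega) (fun _ => 0) (fun n => by
      simp only [Nat.cast_zero]; exact Real.rpow_nonneg (by linarith) _) (fun _ => 0) (fun _ => Nat.zero_le _)
      (fun _ => B * N) (fun _ m => m) (fun i => (spread_iff _ _ _ _ _ _).2 ⟨1, le_rfl, Pool.Agent.TH445.OI.good_all N B hB⟩)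
    refine ⟨E, hE1, ?_, fun m hm hmE => ?_⟩
    · refine hE2.trans (le_of_eq ?_)
      rw [prod_const, card_univ, Fintype.card_fin]
    · have h1 := hE3 m hm hmE (fun _ _ => 1) (fun _ _ => by norm_num) (fun _ u _ => u 0)
      simp only [add_zero, one_mul, sum_const, Nat.card_Icc, Nat.add_sub_cancel, nsmul_eq_mul, mul_one, prod_const, card_univ, Fintype.card_fin] at h1
      have e2 : (1 / (N : ℝ)) * ∑ n ∈ Icc 1 N, ((if ∀ i, cardFactors (n + m i) = cardFactors n then (1 : ℝ) else 0) - dens N (cardFactors n) ^ k) =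
          (1 / (N : ℝ)) * (((Icc 1 N).filter (fun n => ∀ i, cardFactors (n + m i) = cardFactors n)).card : ℝ) -
            (1 / (N : ℝ)) * ∑ n ∈ Icc 1 N, dens N (cardFactors n) ^ k := by
        rw [sum_sub_distrib, mul_sub, card_filter]
        push_cast
        rfl
      rw [e2] at h1
      have e3 : 1 / (N : ℝ) * N = 1 := by field_simp
      rw [e3, mul_one] at h1
      refine h1.trans ?_
      have hv0 : 0 < ll N := by linarith
      have hsv0 : 0 < √(ll N) := Real.sqrt_pos.2 hv0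
      have hu0 : 0 < Real.log (ll N) := by linarith
      have t2 : C / ll N ^ (k + 1) ≤ C * (Real.log (ll N) / √(ll N) ^ (k + 1)) := by
        rw [div_eq_mul_one_div]
        apply mul_le_mul_of_nonneg_left _ hC.le
        apply div_le_div₀ hu0.le u1 (by positivity)
        apply pow_le_pow_left₀ hsv0.le
        rw [Real.sqrt_le_left hv0.le]
        nlinarith
      rw [add_mul]
      linarith

end Pool.Agent.Results.MP_e0aac0_nt.LocalLaw
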