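import Pool.Agent.TH823.KB.Full2
import Pool.Agent.TH823.KB.Prod3

/-!
# Independence of the `Ω(n + h i)` for all tuples of shifts but a power saving

For `N` large and all tuples `h` of shifts up to `A N` but `N ^ (-δ)` of them: the integer part of `Ω(n + h i) / 2` is
independent, up to `ε`, of everything that the other `Ω(n + h j)` determine. If the scale `N` has no exceptional
character, the same holds for `Ω(n + h i)` itself.

From the starting files: the zero-free region and the local formula for the logarithmic derivative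
(`Pool.Agent.W66`), the large sieve (`Pool.Agent.Helper112`), bilinear exponential sums and the moments of Weyl
sums (`Pool.Agent.H373R2`), Dirichlet's approximation (`Pool.Agent.W93`), the Turan–Kubilius inequality
(`Pool.Agent.Helper480`), Mertens' theorem, the fundamental lemma and the law of the smooth parts of linear forms
(`Pool.Agent.W208`, `Pool.Agent.W591`, `Pool.Agent.W479`, `Pool.Agent.W883`, `Pool.Agent.W975`).
From Mathlib: `ArithmeticFunction.cardFactors n`: the number `Ω(n)` of prime factors with multiplicity;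
`DirichletCharacter ℂ q`: the Dirichlet characters of modulus `q`; `Finset.Icc 1 X`: the integers `n` with
`1 ≤ n ≤ X`; `Fintype.piFinset S`: the tuples `h` with `h i ∈ S i` for all `i`; `i.succAbove j` for `j < r`: the
elements of `{0, ..., r}` different from `i`, in increasing order; `m / s` for natural numbers: the integer part.
-/

set_option autoImplicit false

namespace Pool.Agent.Results.MP_e0aac0_nt.PowerSavingIndependence

open Finset
open ArithmeticFunction (cardFactors)

/-- The primes `p` with `y < p ≤ z`. -/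
def primes (y z : ℕ) : Finset ℕ := (Ioc y z).filter Nat.Prime

/-- The integer part of `N ^ (1 / (2 D))`. -/
noncomputable def root (D N : ℕ) : ℕ := ⌊(N : ℝ) ^ (1 / (2 * D : ℝ))⌋₊

/-- The scale `N` is not exceptional, with `Q = root D N`: no real nonprincipal character of modulus `q ≤ Q` has
`∑ χ(p) / p < - (3 / 5) ∑ 1 / p` over the primes `p` with `Q ^ 6 < p ≤ Q ^ (6 E)`. -/
def NonExceptional (E D N : ℕ) : Prop :=
  ∀ q : ℕ, 1 ≤ q → q ≤ root D N → ∀ χ : DirichletCharacter ℂ q, χ ≠ 1 → χ ^ 2 = 1 →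
    -(3 / 5) * ∑ p ∈ primes (root D N ^ 6) (root D N ^ (6 * E)), 1 / (p : ℝ) ≤
      ∑ p ∈ primes (root D N ^ 6) (root D N ^ (6 * E)), (χ (p : ZMod q)).re / p

open Classical in
/-- The number of the elements of the finite set `S` with the property `F`. -/
noncomputable def num {α : Type} (S : Finset α) (F : α → Prop) : ℝ := ((S.filter F).card : ℝ)

/-- The proportion of the `n` with `1 ≤ n ≤ N` that have the property `F`. -/
noncomputable def dens (N : ℕ) (F : ℕ → Prop) : ℝ := num (Icc 1 N) F / N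

/-- The vector of the `Ω(n + h j)`, `j ≠ i`. -/
def rest {r : ℕ} (h : Fin (r + 1) → ℕ) (i : Fin (r + 1)) (n : ℕ) : Fin r → ℕ :=
  fun j => cardFactors (n + h (i.succAbove j))

/-- For every coordinate `i`, for all sets `S` of integers and all sets `T` of vectors: the integer part of
`Ω(n + h i) / s` lies in `S` independently, up to `ε`, of whether the vector of the `Ω(n + h j)`, `j ≠ i`, lies in
`T`, and its law is that of `Ω(n) / s`. In particular the joint law on the products of sets is the product law. -/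
def Independent {r : ℕ} (s : ℕ) (ε : ℝ) (N : ℕ) (h : Fin (r + 1) → ℕ) : Prop :=
  (∀ (i : Fin (r + 1)) (S : Set ℕ) (T : Set (Fin r → ℕ)),
    |dens N (fun n => cardFactors (n + h i) / s ∈ S ∧ rest h i n ∈ T) -
      dens N (fun n => cardFactors n / s ∈ S) * dens N (fun n => rest h i n ∈ T)| ≤ ε) ∧
  ∀ S : Fin (r + 1) → Set ℕ,
    |dens N (fun n => ∀ i, cardFactors (n + h i) / s ∈ S i) - ∏ i, dens N (fun n => cardFactors n / s ∈ S i)| ≤ ε

lemma num_eq {α : Type} (S : Finset α) (F : α → Prop) [DecidablePred F] :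
    num S F = ((S.filter F).card : ℝ) := by
  unfold num
  congr!

lemma num_cn {r : ℕ} (X : ℕ) (h : Fin (r + 1) → ℕ) (i : Fin (r + 1)) (S : Set ℕ) (T : Set (Fin r → ℕ)) :
    num (Icc 1 X) (fun n => cardFactors (n + h i) ∈ S ∧ rest h i n ∈ T) = Pool.Agent.TH823.OP.cn X h i S T := by
  classical
  unfold Pool.Agent.TH823.OP.cn
  rw [num_eq]
  apply congrArg
  apply congrArg
  exact filter_congr fun n _ => Iff.rfl

lemma num_T {r : ℕ} (X : ℕ) (h : Fin (r + 1) → ℕ) (i : Fin (r + 1)) (T : Set (Fin r → ℕ)) :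
    num (Icc 1 X) (fun n => rest h i n ∈ T) = Pool.Agent.TH823.OP.cn X h i Set.univ T := by
  rw [← num_cn]
  unfold num
  congr! 3
  simp

lemma num_p1 (N : ℕ) (S : Set ℕ) :
    num (Icc 1 N) (fun n => cardFactors n ∈ S) = Pool.Agent.TH823.KB.p1 N 0 S := by
  unfold num Pool.Agent.TH823.KB.p1 Pool.Agent.TH823.KB.pn
  congr! 3
  simp

lemma num_pn {r : ℕ} (N : ℕ) (h : Fin r → ℕ) (S : Fin r → Set ℕ) :
    num (Icc 1 N) (fun n => ∀ i, cardFactors (n + h i) ∈ S i) = Pool.Agent.TH823.KB.pn N h S := by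
  unfold num Pool.Agent.TH823.KB.pn
  congr!

lemma root_pow {D Q : ℕ} (hD : 1 ≤ D) : root D (Q ^ (2 * D)) = Q := by
  unfold root
  have hD0 : (0 : ℝ) < D := by exact_mod_cast hD
  have h1 : (((Q ^ (2 * D) : ℕ) : ℝ)) ^ (1 / (2 * D : ℝ)) = Q := by
    push_cast
    rw [← Real.rpow_natCast, ← Real.rpow_mul (Nat.cast_nonneg Q)]
    push_cast
    rw [mul_one_div_cancel (by positivity), Real.rpow_one]
  rw [h1, Nat.floor_natCast]

/-- Let `A` and `r` be integers and `ε > 0`. There are `E ≥ 1`, `D ≥ 6 E + 2` and `δ > 0` such that, for all large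
`N` and all `x 0, ..., x r` between `N ^ (1 - δ)` and `A N`: all the tuples `h` with `1 ≤ h i ≤ x i` but
`x 0 ⋯ x r / N ^ δ` of them are such that, for every `i`, the integer part of `Ω(n + h i) / 2` is independent, up to
`ε`, of all the events that depend on the vector of the `Ω(n + h j)`, `j ≠ i`, and is distributed as the integer part of
`Ω(n) / 2`; if the scale `N` is not exceptional, the same holds for `Ω(n + h i)` itself. There are arbitrarily large
scales that are not exceptional. -/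
theorem result (A r : ℕ) (ε : ℝ) (hε : 0 < ε) :
    ∃ E D : ℕ, 1 ≤ E ∧ 6 * E + 2 ≤ D ∧ ∃ δ : ℝ, 0 < δ ∧
      (∃ N₀ : ℕ, ∀ N : ℕ, N₀ ≤ N → ∀ x : Fin (r + 1) → ℕ, (∀ i, x i ≤ A * N ∧ (N : ℝ) ^ (1 - δ) ≤ x i) →
        num (Fintype.piFinset fun i => Icc 1 (x i)) (fun h => ¬ Independent 2 ε N h) ≤
          (∏ i, (x i : ℝ)) * (N : ℝ) ^ (-δ) ∧
        (NonExceptional E D N → num (Fintype.piFinset fun i => Icc 1 (x i)) (fun h => ¬ Independent 1 ε N h) ≤
          (∏ i, (x i : ℝ)) * (N : ℝ) ^ (-δ))) ∧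
      ∀ N₁ : ℕ, ∃ N : ℕ, N₁ ≤ N ∧ NonExceptional E D N := by
  classical
  obtain ⟨E01, hgs⟩ := Pool.Agent.TH823.PS.good_scales
  have hr0 : (0 : ℝ) < (r : ℝ) + 1 := by positivity
  obtain ⟨E, D, hE, hD, δ, hδ, N₀, h⟩ := Pool.Agent.TH823.KB.full E01 A r (ε := ε / (r + 1)) (by positivity)
  have hεr : ε / (r + 1) ≤ ε := div_le_self hε.le (by linarith [(Nat.cast_nonneg r : (0 : ℝ) ≤ r)])
  -- from the properties of the library to the definitions
  have key : ∀ (s N : ℕ), 1 ≤ N → ∀ h : Fin (r + 1) → ℕ,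
      ((∀ i S T X, X ≤ N → |Pool.Agent.TH823.OP.cn X h i {l | l + s ∈ S} T -
        Pool.Agent.TH823.OP.cn X h i S T| ≤ ε / (r + 1) * N) ∧
      (∀ (i : Fin (r + 1)) (S : Set ℕ) (T : Set (Fin r → ℕ)),
        |Pool.Agent.TH823.OP.cn N h i {l | l / s ∈ S} T / N -
        (Pool.Agent.TH823.KB.p1 N 0 {l | l / s ∈ S} / N) * (Pool.Agent.TH823.OP.cn N h i Set.univ T / N)| ≤
          ε / (r + 1))) → Independent s ε N h := by
    intro s N hN h hh
    refine ⟨fun i S T => ?_, fun S => ?_⟩
    · have h1 := num_cn N h i {l | l / s ∈ S} T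
      change num (Icc 1 N) (fun n => cardFactors (n + h i) / s ∈ S ∧ rest h i n ∈ T) = _ at h1
      have h2 := num_p1 N {l | l / s ∈ S}
      change num (Icc 1 N) (fun n => cardFactors n / s ∈ S) = _ at h2
      unfold dens
      rw [h1, h2, num_T]
      exact (hh.2 i S T).trans hεr
    · have h1 := num_pn N h (fun i => {l | l / s ∈ S i})
      change num (Icc 1 N) (fun n => ∀ i, cardFactors (n + h i) / s ∈ S i) = _ at h1
      have h2 : ∀ i, num (Icc 1 N) (fun n => cardFactors n / s ∈ S i) =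
          Pool.Agent.TH823.KB.p1 N 0 {l | l / s ∈ S i} := fun i => num_p1 N {l | l / s ∈ S i}
      unfold dens
      rw [h1]
      simp only [h2]
      refine (Pool.Agent.TH823.KB.prod_of_full hN h (fun i => {l | l / s ∈ S i})
        (fun i T => hh.2 i (S i) T)).trans (le_of_eq ?_)
      field_simp
  have hcount : ∀ (s N : ℕ), 1 ≤ N → ∀ x : Fin (r + 1) → ℕ,
      num (Fintype.piFinset fun i => Icc 1 (x i)) (fun h => ¬ Independent s ε N h) ≤
      (((Fintype.piFinset fun i => Icc 1 (x i)).filter fun h =>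
        ¬ ((∀ i S T X, X ≤ N → |Pool.Agent.TH823.OP.cn X h i {l | l + s ∈ S} T -
          Pool.Agent.TH823.OP.cn X h i S T| ≤ ε / (r + 1) * N) ∧
        (∀ (i : Fin (r + 1)) (S : Set ℕ) (T : Set (Fin r → ℕ)),
          |Pool.Agent.TH823.OP.cn N h i {l | l / s ∈ S} T / N -
          (Pool.Agent.TH823.KB.p1 N 0 {l | l / s ∈ S} / N) * (Pool.Agent.TH823.OP.cn N h i Set.univ T / N)| ≤
            ε / (r + 1)))).card : ℝ) := by
    intro s N hN x
    rw [num_eq]
    apply Nat.cast_le.2
    apply card_le_card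
    intro h hh
    rw [mem_filter] at hh ⊢
    exact ⟨hh.1, fun hcon => hh.2 (key s N hN h hcon)⟩
  refine ⟨E, D, by omega, hD, δ, hδ, ⟨N₀ + 1, fun N hN x hx => ⟨?_, fun hne => ?_⟩⟩, fun N₁ => ?_⟩
  · refine (hcount 2 N (by omega) x).trans ?_
    convert h N (by omega) x hx 2 (Or.inr rfl)
  · refine (hcount 1 N (by omega) x).trans ?_
    convert h N (by omega) x hx 1 (Or.inl ⟨rfl, ?_⟩)
    intro q _ hq χ hχ1 hχ2
    have h5 := hne q (Nat.pos_of_ne_zero (NeZero.ne q)) hq χ hχ1 hχ2
    refine le_trans h5 (le_of_eq ?_)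
    apply sum_congr rfl
    intro p _
    rw [Pool.Agent.TH823.PS.rt_zero]
  · obtain ⟨Q, hQ, hNE⟩ := hgs E (by omega) 6 (by norm_num) (N₁ + 1)
    refine ⟨Q ^ (2 * D), ?_, ?_⟩
    · have : Q ≤ Q ^ (2 * D) := Nat.le_self_pow (by omega) Q
      omega
    · intro q hq1 hq χ hχ1 hχ2
      rw [root_pow (by omega)] at hq ⊢
      have : NeZero q := ⟨by omega⟩
      refine le_trans (hNE q hq χ hχ1 hχ2) (le_of_eq ?_)
      apply sum_congr rfl
      intro p _
      rw [Pool.Agent.TH823.PS.rt_zero]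

end Pool.Agent.Results.MP_e0aac0_nt.PowerSavingIndependence
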