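import Mathlib
import Pool.Agent.TH575.OM.FinO

/-!
# Asymptotic independence of `Ω(n)` and `Ω(n+h)` at almost all dyadic scales
-/

set_option autoImplicit false

namespace Pool.Agent.Results.MP_e0aac0_nt.TwoExactCoordinates

open Finset

/-- the discrepancy: the mean over `1 ≤ n ≤ M` of `a(Ω(n)) b(Ω(n+h))` minus the product of the means
over `1 ≤ n ≤ M` of `a(Ω(n))` and of `b(Ω(n))` -/
noncomputable def Disc (a b : ℕ → ℂ) (h M : ℕ) : ℂ :=
  (∑ n ∈ Icc 1 M, a (ArithmeticFunction.cardFactors n) * b (ArithmeticFunction.cardFactors (n + h))) / (M : ℂ) -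
    ((∑ n ∈ Icc 1 M, a (ArithmeticFunction.cardFactors n)) / (M : ℂ)) *
      ((∑ n ∈ Icc 1 M, b (ArithmeticFunction.cardFactors n)) / (M : ℂ))

/-- Let `h ≥ 1`. For every `ε > 0` there is `C` such that for every `J`, for all large `N` and all
sequences `a`, `b` bounded by one, the dyadic scales `N / 2 ^ i`, `1 ≤ i ≤ J`, at which the
discrepancy is larger than `ε` satisfy `∑ 1/i ≤ C`. -/
theorem result (h : ℕ) (hh : 1 ≤ h) (ε : ℝ) (hε : 0 < ε) :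
    ∃ C : ℝ, ∀ J : ℕ, ∃ N₀ : ℕ, ∀ N : ℕ, N₀ ≤ N →
      ∀ a b : ℕ → ℂ, (∀ l, ‖a l‖ ≤ 1) → (∀ l, ‖b l‖ ≤ 1) →
        ∑ i ∈ (Icc 1 J).filter (fun i => ε < ‖Disc a b h (N / 2 ^ i)‖), 1 / (i : ℝ) ≤ C :=
  Pool.Agent.TH575.OM.mainC h hh ε hε

end Pool.Agent.Results.MP_e0aac0_nt.TwoExactCoordinates
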